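import Mathlib

/-!
# The v-number and the regularity along a Noetherian graded filtration

Let `K` be an infinite field, `R₀ = K⟦X⟧` and `R = R₀[y]` with `deg y = 2`. The ideals `I_[k] = (X ^ k)`
form a Noetherian graded filtration of `R`. We have `v(I_[k]) = 0` for `k ≥ 1`, since `X ^ (k - 1)` has
degree zero and `(I_[k] : X ^ (k - 1)) = (X)` is a prime ideal; and `reg(I_[k]) = reg(R) = -1`, since
the only nonzero local cohomology of `R` with support in `R₊ = (y)` is `R_y / R`, whose largest
nonzero degree is the degree `-2` of `1 / y`. So `v(I_[k]) > reg(I_[k])` for all `k ≥ 1`.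

The local cohomology of an ideal `M` with support in the ideal generated by one element `y` is the
cohomology of the Čech complex `0 → M → M_y → 0`.
-/

set_option autoImplicit false

open MvPolynomial

namespace Pool.Agent.Results.MP_72aa19_al.NonStandardGrading

section general

variable {R₀ R : Type} [CommRing R₀] [CommRing R] [Algebra R₀ R] (𝒜 : ℕ → Submodule R₀ R)

/-- the v-number of the ideal `I`: the least degree `d` of a homogeneous element `f` for which
`(I : f)` is a prime ideal -/
noncomputable def vNumber (I : Ideal R) : ℕ :=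
  sInf {d | ∃ f ∈ 𝒜 d, ∃ 𝔭 : Ideal R, 𝔭.IsPrime ∧ ∀ g, g ∈ 𝔭 ↔ g * f ∈ I}

/-- The component of degree `d` of the kernel of `M → M_y`, that is, of `H⁰` with support in `(y)`,
is not zero: there is `m ≠ 0` in `M`, homogeneous of degree `d`, with `y ^ N * m = 0`. -/
def H0Ne (y : R) (M : Ideal R) (d : ℤ) : Prop :=
  ∃ (e : ℕ) (m : R), (e : ℤ) = d ∧ m ∈ 𝒜 e ∧ m ∈ M ∧ m ≠ 0 ∧ ∃ N : ℕ, y ^ N * m = 0

/-- The component of degree `d` of the cokernel of `M → M_y`, that is, of `H¹` with support in `(y)`,
is not zero, where `y` is homogeneous of degree `δ`: there is a fraction `m / y ^ N` of degree `d`,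
with `m` homogeneous in `M`, which is different from `m' / 1` in `M_y` for all `m'` in `M`. -/
def H1Ne (y : R) (δ : ℕ) (M : Ideal R) (d : ℤ) : Prop :=
  ∃ (N e : ℕ) (m : R), (e : ℤ) = d + δ * N ∧ m ∈ 𝒜 e ∧ m ∈ M ∧
    ∀ m' ∈ M, ∀ N' : ℕ, y ^ N' * m ≠ y ^ N' * (y ^ N * m')

/-- The regularity of the ideal `M` is `r`, where `R₊ = (y)` and `y` is homogeneous of degree `δ`:
`r` is the greatest `d + i` such that the component of degree `d` of `H^i` is not zero (`i = 0, 1`). -/
def IsRegularity (y : R) (δ : ℕ) (M : Ideal R) (r : ℤ) : Prop :=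
  IsGreatest {e : ℤ | H0Ne 𝒜 y M e ∨ H1Ne 𝒜 y δ M (e - 1)} r

/-- `𝔪` is the maximal graded ideal, and its residue field is `K`: it is maximal, homogeneous, and
contains all proper homogeneous ideals. -/
def IsMaximalGraded [GradedAlgebra 𝒜] (𝔪 : Ideal R) (K : Type) [Field K] : Prop :=
  𝔪.IsMaximal ∧ 𝔪.IsHomogeneous 𝒜 ∧ (∀ J : Ideal R, J.IsHomogeneous 𝒜 → J ≠ ⊤ → J ≤ 𝔪) ∧
    Nonempty (R ⧸ 𝔪 ≃+* K)

/-- `y` is homogeneous of degree `δ` and generates `R₊`, the ideal of the elements whose component of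
degree zero is zero -/
def GeneratesPlus [GradedAlgebra 𝒜] (y : R) (δ : ℕ) : Prop :=
  y ∈ 𝒜 δ ∧ ∀ f : R, (DirectSum.decompose 𝒜 f 0 : R) = 0 ↔ f ∈ Ideal.span {y}

/-- `I` is a Noetherian graded filtration; the Rees ring consists of the polynomials over `R` whose
`k`-th coefficient is in `I k` for all `k`. -/
def IsNoetherianFiltration [GradedAlgebra 𝒜] (I : ℕ → Ideal R) : Prop :=
  I 0 = ⊤ ∧ (∀ k, I (k + 1) ≤ I k) ∧ (∀ k l, I k * I l ≤ I (k + l)) ∧
    (∀ k, (I k).IsHomogeneous 𝒜) ∧
    ∃ S : Subring (Polynomial R), (∀ f, f ∈ S ↔ ∀ k, f.coeff k ∈ I k) ∧ IsNoetherianRing S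

end general

variable (K : Type) [Field K]

/-- the weight of `y` -/
abbrev w : Fin 1 → ℕ := fun _ => 2

/-- the grading -/
noncomputable abbrev gr : ℕ → Submodule (PowerSeries K) (MvPolynomial (Fin 1) (PowerSeries K)) :=
  weightedHomogeneousSubmodule (PowerSeries K) w

/-- the filtration -/
noncomputable def I (k : ℕ) : Ideal (MvPolynomial (Fin 1) (PowerSeries K)) :=
  Ideal.span {C ((PowerSeries.X : PowerSeries K) ^ k)}

theorem weight_eq (d : Fin 1 →₀ ℕ) : Finsupp.weight w d = 2 * d 0 := by
  rw [Finsupp.weight_apply, Finsupp.sum_fintype _ _ (by simp)]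
  simp [mul_comm]

theorem mem_I {k : ℕ} {f : MvPolynomial (Fin 1) (PowerSeries K)} :
    f ∈ I K k ↔ ∃ g, f = C ((PowerSeries.X : PowerSeries K) ^ k) * g := by
  unfold I
  rw [Ideal.mem_span_singleton]
  rfl

theorem I_pow (k : ℕ) : I K k = I K 1 ^ k := by
  unfold I
  rw [Ideal.span_singleton_pow, ← map_pow, pow_one]

theorem form (e : ℕ) {m : MvPolynomial (Fin 1) (PowerSeries K)} (hm : m ∈ gr K e) (h0 : m ≠ 0) :
    ∃ j : ℕ, e = 2 * j ∧ ∃ c, m = monomial (Finsupp.single 0 j) c := by
  classical
  obtain ⟨d, hd⟩ := MvPolynomial.ne_zero_iff.1 h0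
  have h1 : ∀ d', coeff d' m ≠ 0 → Finsupp.weight w d' = e := fun d' h => hm h
  have h2 := h1 d hd
  rw [weight_eq] at h2
  refine ⟨d 0, h2.symm, coeff d m, ?_⟩
  have h3 : ∀ d' : Fin 1 →₀ ℕ, Finsupp.single 0 (d' 0) = d' := fun d' => Finsupp.ext fun v => by
    rw [Subsingleton.elim v 0, Finsupp.single_eq_same]
  rw [h3]
  ext d'
  rw [coeff_monomial]
  split_ifs with h4
  · rw [h4]
  · have : coeff d' m = 0 := by
      by_contra h5
      have h6 := h1 d' h5
      rw [weight_eq] at h6
      refine h4 ?_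
      rw [← h3 d, ← h3 d', show d 0 = d' 0 by omega]
    rw [this]

/-- Let `K` be an infinite field. There are a Noetherian ring `R₀`, a finitely generated
`ℕ`-graded `R₀`-algebra `R`, which is a domain, with greatest proper homogeneous ideal `𝔪` (which is
a maximal ideal) and `R / 𝔪 ≅ K`, and with `R₊` generated by one homogeneous element `y`, and a
Noetherian graded filtration `I` of `R` such that `I k` is a proper ideal, `v(I k) = 0` and
`reg(I k) = -1` for all `k ≥ 1`. -/
theorem result [Infinite K] :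
    ∃ (R₀ R : Type) (_ : CommRing R₀) (_ : CommRing R) (_ : Algebra R₀ R)
      (𝒜 : ℕ → Submodule R₀ R) (_ : GradedAlgebra 𝒜) (𝔪 : Ideal R) (y : R) (δ : ℕ)
      (I : ℕ → Ideal R),
      (IsNoetherianRing R₀ ∧ Algebra.FiniteType R₀ R ∧ IsDomain R) ∧
      IsMaximalGraded 𝒜 𝔪 K ∧ GeneratesPlus 𝒜 y δ ∧ IsNoetherianFiltration 𝒜 I ∧
      ∀ k : ℕ, 1 ≤ k → I k ≠ ⊤ ∧ vNumber 𝒜 (I k) = 0 ∧ IsRegularity 𝒜 y δ (I k) (-1) := by
  classical
  let _ := weightedGradedAlgebra (PowerSeries K) w
  have hX : (PowerSeries.X : PowerSeries K) ≠ 0 := PowerSeries.X_ne_zero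
  have hC : ∀ k : ℕ, (C ((PowerSeries.X : PowerSeries K) ^ k) :
      MvPolynomial (Fin 1) (PowerSeries K)) ≠ 0 := fun k h => by
    rw [← C_0 (σ := Fin 1)] at h
    exact pow_ne_zero k hX (C_injective _ _ h)
  -- the maximal ideal
  let φ : MvPolynomial (Fin 1) (PowerSeries K) →+* K :=
    (PowerSeries.constantCoeff (R := K)).comp (constantCoeff (σ := Fin 1))
  have hφ : Function.Surjective φ := fun c => ⟨C (PowerSeries.C c), by simp [φ]⟩
  have hdec : ∀ (f : MvPolynomial (Fin 1) (PowerSeries K)) (i : ℕ),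
      (DirectSum.decompose (gr K) f i : MvPolynomial (Fin 1) (PowerSeries K)) =
        weightedHomogeneousComponent w i f := fun f i =>
    weightedDecomposition.decompose'_apply (PowerSeries K) w f i
  have hcomp0 : ∀ f : MvPolynomial (Fin 1) (PowerSeries K),
      weightedHomogeneousComponent w 0 f = C (coeff 0 f) := fun f =>
    weightedHomogeneousComponent_zero f (fun _ => two_ne_zero)
  have hX0 : ∀ g : MvPolynomial (Fin 1) (PowerSeries K), coeff 0 (X 0 * g) = 0 := fun g => by
    rw [← constantCoeff_eq, map_mul, constantCoeff_X, zero_mul]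
  have hCmem : ∀ c : PowerSeries K, (C c : MvPolynomial (Fin 1) (PowerSeries K)) ∈ gr K 0 :=
    fun c => isWeightedHomogeneous_C w c
  refine ⟨PowerSeries K, MvPolynomial (Fin 1) (PowerSeries K), inferInstance, inferInstance,
    inferInstance, gr K, inferInstance, RingHom.ker φ, X 0, 2, I K,
    ⟨inferInstance, inferInstance, inferInstance⟩,
    ⟨RingHom.ker_isMaximal_of_surjective φ hφ, ?_, ?_,
      ⟨RingHom.quotientKerEquivOfSurjective hφ⟩⟩, ⟨?_, ?_⟩,
    ⟨?_, ?_, ?_, ?_, (reesAlgebra (I K 1)).toSubring, ?_, ?_⟩, ?_⟩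
  · -- homogeneous
    intro i f hf
    rw [hdec, RingHom.mem_ker]
    change PowerSeries.constantCoeff (constantCoeff (weightedHomogeneousComponent w i f)) = 0
    rw [constantCoeff_eq, coeff_weightedHomogeneousComponent]
    split_ifs with h
    · exact hf
    · exact map_zero _
  · intro J hJ hJt f hf
    rw [RingHom.mem_ker]
    by_contra hne
    have h1 := (Ideal.IsHomogeneous.mem_iff (gr K) hJ).1 hf 0
    rw [hdec, hcomp0] at h1
    refine hJt (Ideal.eq_top_of_isUnit_mem J h1 ?_)
    refine IsUnit.map _ (PowerSeries.isUnit_iff_constantCoeff.2 ?_)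
    exact isUnit_iff_ne_zero.2 hne
  · exact isWeightedHomogeneous_X (PowerSeries K) w 0
  · intro f
    rw [hdec, hcomp0, Ideal.mem_span_singleton]
    constructor
    · intro h
      have h0 : coeff 0 f = 0 := by
        rw [← C_0 (σ := Fin 1)] at h
        exact C_injective _ _ h
      rw [X_dvd_iff_modMonomial_eq_zero]
      ext d
      by_cases hd : Finsupp.single 0 1 ≤ d
      · rw [coeff_modMonomial_of_le _ hd, coeff_zero]
      · rw [coeff_modMonomial_of_not_le _ hd, coeff_zero]
        have : d = 0 := Finsupp.ext fun v => by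
          rw [Subsingleton.elim v 0]
          rw [Finsupp.single_le_iff] at hd
          simpa using hd
        rw [this, h0]
    · rintro ⟨g, rfl⟩
      rw [hX0, C_0]
  · unfold I
    simp
  · intro k
    unfold I
    rw [Ideal.span_singleton_le_span_singleton, pow_succ, C_mul]
    exact Dvd.intro _ rfl
  · intro k l
    unfold I
    rw [Ideal.span_singleton_mul_span_singleton, ← C_mul, ← pow_add]
  · intro k
    refine Ideal.homogeneous_span _ _ fun f hf => ?_
    rw [Set.mem_singleton_iff.1 hf]
    exact ⟨0, hCmem _⟩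
  · intro f
    change f ∈ reesAlgebra (I K 1) ↔ _
    rw [mem_reesAlgebra_iff]
    exact forall_congr' fun k => by rw [I_pow K k]
  · exact inferInstanceAs (IsNoetherianRing (reesAlgebra (I K 1)))
  · intro k hk
    refine ⟨?_, ?_, ?_⟩
    · -- the ideal is proper
      rw [Ne, Ideal.eq_top_iff_one, mem_I]
      rintro ⟨g, hg⟩
      have h1 := congrArg (constantCoeff (σ := Fin 1)) hg
      rw [map_one, map_mul, constantCoeff_C] at h1
      have h2 : IsUnit ((PowerSeries.X : PowerSeries K) ^ k) := IsUnit.of_mul_eq_one _ h1.symm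
      exact PowerSeries.X_prime.not_isUnit ((isUnit_pow_iff (by omega)).1 h2)
    · -- the v-number
      unfold vNumber
      rw [Nat.sInf_eq_zero]
      left
      refine ⟨C (PowerSeries.X ^ (k - 1)), hCmem _, Ideal.span {C PowerSeries.X}, ?_, fun g => ?_⟩
      · rw [Ideal.span_singleton_prime (by have := hC 1; rwa [pow_one] at this)]
        exact (MvPolynomial.prime_C_iff (Fin 1)).2 PowerSeries.X_prime
      · rw [Ideal.mem_span_singleton, mem_I]
        constructor
        · rintro ⟨q, rfl⟩
          refine ⟨q, ?_⟩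
          rw [mul_right_comm, ← C_mul, mul_comm PowerSeries.X, ← pow_succ, Nat.sub_add_cancel hk]
        · rintro ⟨q, hq⟩
          refine ⟨q, ?_⟩
          have h1 : C (PowerSeries.X ^ k) = C (PowerSeries.X ^ (k - 1)) *
              (C PowerSeries.X : MvPolynomial (Fin 1) (PowerSeries K)) := by
            rw [← C_mul, ← pow_succ, Nat.sub_add_cancel hk]
          rw [h1, mul_assoc, mul_comm g] at hq
          exact mul_left_cancel₀ (hC (k - 1)) hq
    · constructor
      · right
        refine ⟨1, 0, C (PowerSeries.X ^ k), by norm_num, hCmem _, (mem_I K).2 ⟨1, (mul_one _).symm⟩,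
          fun m' _ N' h => ?_⟩
        have h1 := mul_left_cancel₀ (pow_ne_zero N' (X_ne_zero (0 : Fin 1))) h
        have h2 := congrArg (coeff 0) h1
        rw [pow_one, hX0, coeff_zero_C] at h2
        exact pow_ne_zero k hX h2
      · rintro e (⟨e', m, _, _, _, hm, N, hN⟩ | ⟨N, e', m, he, hme, hmI, hne⟩)
        · exact absurd hN (mul_ne_zero (pow_ne_zero N (X_ne_zero (0 : Fin 1))) hm)
        · by_contra hlt
          have h0 : m ≠ 0 := by
            rintro rfl
            exact hne 0 (Ideal.zero_mem _) 0 (by simp)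
          obtain ⟨j, hj, c, rfl⟩ := form K e' hme h0
          have hjN : N ≤ j := by
            push_cast at he
            omega
          obtain ⟨q, hq⟩ := (mem_I K).1 hmI
          have hc : c = PowerSeries.X ^ k * coeff (Finsupp.single 0 j) q := by
            have := congrArg (coeff (Finsupp.single 0 j)) hq
            rwa [coeff_monomial, if_pos rfl, coeff_C_mul] at this
          refine hne (monomial (Finsupp.single 0 (j - N)) c) ?_ 0 ?_
          · refine (mem_I K).2 ⟨monomial (Finsupp.single 0 (j - N)) (coeff (Finsupp.single 0 j) q), ?_⟩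
            rw [C_mul_monomial, ← hc]
          · rw [pow_zero, one_mul, one_mul, X_pow_eq_monomial, monomial_mul, one_mul,
              ← Finsupp.single_add, Nat.add_sub_cancel' hjN]

end Pool.Agent.Results.MP_72aa19_al.NonStandardGrading
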